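import Pool.Agent.Results.MP_787500_nt.InfiniteTowersX49
import Pool.Agent.Results.MP_6e2fc3_nt.CMFormsAllWeights

/-!
# The parity conjecture at `p = 2` for CM forms of all the weights `2k`, `k` odd, over all the layers of one
# explicit totally real extension of infinite degree, for exactly the proportion `0.4194…` of the twists

Let `E_D` be the quadratic twist by `D` of `X_0(49)`, `ψ_D` its Hecke character over `K = ℚ(√-7)`. The class
consists of the squarefree `D ≡ 1 mod 8` with all prime factors `1 mod 8` and split in `K` or `5 mod 8` and
inert in `K`. For `D` in the class let the tower primes be the primes `q ≡ 5 mod 8` that are inert in `K` and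
squares modulo all the prime factors of `D` that split in `K`. They are infinitely many, and they depend only
on the split prime factors of `D`. The fields `F` are the totally real fields `F = ℚ(√d_1, …, √d_n)`, where the
`d_i` are products of an even number of tower primes; for every `n` there are such fields of degree `2 ^ n`,
and they are the finite subfields of one totally real extension of `ℚ` of infinite degree.

For every odd `k > 0` and every `M = D ∏_{q ∈ U} q` (`U` an even number of tower primes) the newform of
`ψ_M^{2k-1}` has a base change to `F`, a Hilbert modular newform `g` over `F` of parallel weight `2k` and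
trivial central character. Its Galois representation `V_g` at the prime `2` is the restriction to
`Gal(ℚ̄/F)` of the representation of `Gal(ℚ̄/ℚ)` induced from the character `κ^k κ'^(1-k)` of
`Gal(ℚ̄/K)`; here `κ`, `κ'` are the characters by which `Gal(ℚ̄/K)` acts on the `2`-adic Tate module of
`E_M`.

Theorem. If `E_D(ℚ)` is finite and `Ш(E_D/ℚ)` has no element of order two, then `H¹_f(F, V_g) = 0` for ALL
these fields `F`, all these `M` and all the weights `2k`, `k` odd. The hypothesis holds for exactly the
proportion `c = ∏ (1 - 2^{-(2i+1)}) = 0.4194…` of the `D` of the class.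

The root numbers of these forms are `1` (they are products of `2^n` root numbers of the forms of
`ψ_{M'}^{2k-1}`, `M' > 0`, `M' ≡ 1 mod 8`, which are `1` for odd `k` by the classical formulas), so that
both sides of the parity conjecture are even. (The analytic side is not part of the formal proof.)

In the starting file `InfiniteTowersCMForms` there is, for at least the proportion `c` of the `D`, some sequence
of fields, chosen one after the other with a positive density argument and depending on `D`.
-/

set_option autoImplicit false

open scoped Classical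

namespace Pool.Agent.Results.MP_d4aa36_nt.EveryLayerOfOneTower

open Pool.Agent.Results.MP_787500_nt.AllWeightsMultiquadraticX49 (Adm RankZeroShaTwo prop c Ind)
open Pool.Agent.Results.MP_6e2fc3_nt.CMFormsAllWeights (AllForms)

/-- the primes `q ≡ 5 mod 8` that are inert in `ℚ(√-7)` and squares modulo all the prime factors of `D`
that split in `ℚ(√-7)` -/
def TowerPrime (D q : ℕ) : Prop :=
  q.Prime ∧ q % 8 = 5 ∧ (q % 7 = 3 ∨ q % 7 = 5 ∨ q % 7 = 6) ∧
    ∀ p : ℕ, p.Prime → p ∣ D → (p % 7 = 1 ∨ p % 7 = 2 ∨ p % 7 = 4) → IsSquare (q : ZMod p)

/-- a set of an even number of tower primes -/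
def EvenSet (D : ℕ) (S : Finset ℕ) : Prop := (∀ q ∈ S, TowerPrime D q) ∧ Even S.card

/-- `H¹_f(F, V_g) = 0` for the forms of the weights `2k`, `k` odd, for all the twists `M = D ∏_{q ∈ U} q` of
`X_0(49)` and over all the layers `F = ℚ(√d_1, …, √d_n)`, the `d_i` and `∏_{q ∈ U} q` products of an even
number of tower primes -/
def AllLayers (D : ℕ) : Prop :=
  ∀ U : Finset ℕ, EvenSet D U → ∀ (n : ℕ) (S : Fin n → Finset ℕ), (∀ i, EvenSet D (S i)) →
    AllForms (D * ∏ q ∈ U, q) (fun i => ∏ q ∈ S i, q)

/-- **Theorem.** For `D` in the class there are infinitely many tower primes and layers `F` of every degree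
`2 ^ n`. If `E_D(ℚ)` is finite and `Ш(E_D/ℚ)` has no element of order two, then `H¹_f(F, V_g) = 0` for the forms
of the weights `2k`, `k` odd, over all the layers. This is the case for exactly the proportion
`c = 0.4194…` of the `D` of the class. -/
theorem result :
    (∀ D : ℕ, Adm D → {q : ℕ | TowerPrime D q}.Infinite ∧
      (∀ n : ℕ, ∃ S : Fin n → Finset ℕ, (∀ i, EvenSet D (S i)) ∧ Ind fun i => ∏ q ∈ S i, q) ∧
      (RankZeroShaTwo D → AllLayers D)) ∧
    Filter.Tendsto (prop RankZeroShaTwo) Filter.atTop (nhds c) ∧
    0.4194 < c ∧ c < 0.4195 := by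
  have hc := Pool.Agent.Y948.CQ.t_C2.2.2.2
  refine ⟨fun D hD => ⟨Pool.Agent.Results.MP_787500_nt.InfiniteTowersX49.tp_inf hD,
    Pool.Agent.Results.MP_787500_nt.InfiniteTowersX49.exists_ind hD, fun hR U hU n S hS => ?_⟩,
    Pool.Agent.Results.MP_787500_nt.InfiniteTowersX49.law, hc.1, hc.2⟩
  exact Pool.Agent.Results.MP_6e2fc3_nt.CMFormsAllWeights.result.1 n _ _
    (Pool.Agent.Results.MP_787500_nt.InfiniteTowersX49.good hD hR (U := U) hU S hS)

end Pool.Agent.Results.MP_d4aa36_nt.EveryLayerOfOneTower
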