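import Mathlib
import Pool.Agent.U974.AW.Fm8
import Pool.Agent.Y667.BKP.Main
import Pool.Agent.Results.MP_6e2fc3_nt.CMFormsAllWeights

/-!
# The parity conjecture at `λ = 2` for CM forms of all the weights `2k`, `k` odd, over the totally real fields
# generated by square roots of prime tuples, for a positive proportion of all tuples of shifts

Let `E_M` be the quadratic twist by `M` of `X_0(49)`, `ψ_M` its Hecke character over `ℚ(√-7)`. For odd `k > 0`
the newform of `ψ_M^{2k-1}` has a base change `g` to every totally real multiquadratic field `F`, a Hilbert modular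
newform of parallel weight `2k` with trivial central character. Its Galois representation `V_g` at the prime `2` is
the restriction to `Gal(ℚ̄/F)` of the representation induced from the character `κ^k κ'^(1-k)` of `Gal(ℚ̄/ℚ(√-7))`;
here `κ`, `κ'` are the characters by which this group acts on the `2`-adic Tate module of `E_M`.

`T` is ANY finite set of primes which are `1 mod 8` and split or `5 mod 8` and inert in `ℚ(√-7)` (for instance the
empty set), `N` any number prime to `7`. There are a pair of primes `q`, `r` (`5 mod 8`, inert in `ℚ(√-7)`) and a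
bound `B` such that in EVERY set `W` of at least `δ x` integers of `[0, x]` at least the proportion `c(δ) > 0` of all
the `x ^ m` vectors `h_1 < ... < h_m` have their entries in `W` and satisfy: for EVERY graph `G` with the vertices
`1, ..., m` there is `d ∈ {1, q r}` such that for infinitely many `n` the numbers `p_i = n + h_i` are primes, `1`
modulo `56 N`, at most `B` primes lie at distance at most `Y` from `n` (for every `Y`), and

  `H¹_f(F, V_g) = 0` for ALL the odd `k > 0`, ALL the forms `g` of weight `2k` of the twists by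
  `M = d ∏ U ∏_{i ∈ S'} p_i` and ALL the fields `F = ℚ(√d_1, ..., √d_l)`, where the `d_j` are products of elements
  of `J ∪ {p_i : i ∈ S}` that are `1 mod 8`,

for all `S, S' ⊆ {1, ..., m}` such that the numbers of the rooted spanning forests of `G[S' ∆ X]`, `X ⊆ S`, are all
odd, and for all `J, U ⊆ T` with `∏ U ≡ 1 mod 8` such that `E_{∏ (U ∆ V)}(ℚ)` is finite and `Ш[2] = 0` for the
`V ⊆ J` with `∏ V ≡ 1 mod 8` (for instance `J = U = ∅`; if the elements of `T` are inert, for all `J` and `U`).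

The condition on `S`, `S'` holds if every vertex of `S` has at most one neighbour in `S` and `S' ⊆ S`, for instance
for the graph without edges; then the fields are all the subfields of `ℚ(√p_i : i ∈ S)`, fields generated by the new
primes. For `S = ∅` the fields are fixed and the forms vary.

In weight `2` (`k = 1`) both sides of the parity conjecture are determined, and both are zero, for the same `M` and over
ALL the number fields `K ⊆ ℚ(√p_i : i ∈ S; √q : q ∈ J)`, if `E_{∏ (U ∆ V)}(ℚ)` is finite and `Ш[2] = 0` for all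
`V ⊆ J` (for instance if `J` is empty): `L(g, s)` is entire and does not vanish at the centre, and
`H¹_f(K, V_g) = 0`. In the other weights `2k`, `k` odd, the root numbers are `1` (they are products of root numbers of
forms of `ψ_{M'}^{2k-1}`, `M' > 0`, `M' ≡ 1 mod 8`, which are `1` by the classical formulas), so that both sides are
even; this analytic side of the weights `2k > 2` is not part of the formal proof.

Proof. The prime tuples are those of `U974/PP` (Maynard–Tao, Ramsey, Paley graphs). The quartic symbol of `-7` is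
exchanged by the pair `q r` (`U974/AW/Pair`); the linear system of the 2-descent of the twist by `∏ (U ∆ V) d
∏_{S' ∆ X} p_i` splits (`U974/TW/Fld1`, `Fld4`, `U974/AW/Cfg8`). The passage to all the weights and to the fields is
the starting theorem `MP_6e2fc3_nt.CMFormsAllWeights`; in weight `2` the passage to the fields is helper80's `U80/MQ`
(with helper120's `U120/MF`), and the Bloch–Kato Selmer group of the curve is treated with `Y667/BKP`.
-/

set_option autoImplicit false

open scoped Classical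

open WeierstrassCurve NumberField IsDedekindDomain
open scoped symmDiff

namespace Pool.Agent.Results.MP_d4aa36_nt.PrimeTupleForms

open Pool.Agent.TH841.NF.D (Sha)
open Pool.Agent.Y667.BKP (H1f)

open Pool.Agent.Results.MP_787500_nt.AllWeightsMultiquadraticX49 (RankZeroShaTwo)
open Pool.Agent.Results.MP_6e2fc3_nt.CMFormsAllWeights (AllForms)

/-- the coefficient of `x` -/
def A (D : ℕ) : ℤ := -35 * (D : ℤ) ^ 2

/-- the constant coefficient -/
def B (D : ℕ) : ℤ := -98 * (D : ℤ) ^ 3

/-- the curve `y² = x³ - 35 D² x - 98 D³` over `K` -/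
def curve (D : ℕ) (K : Type) [Field K] : WeierstrassCurve K :=
  { a₁ := 0, a₂ := 0, a₃ := 0, a₄ := ((A D : ℤ) : K), a₆ := ((B D : ℤ) : K) }

/-- the eigenvalue `t_v = q_v - #{(x, y) ∈ k_v² : y² = x³ - 35 D² x - 98 D³}` at `v` -/
noncomputable def eigenvalue {K : Type} [Field K] [NumberField K] (D : ℕ)
    (v : HeightOneSpectrum (𝓞 K)) : ℤ :=
  ((Ideal.absNorm v.asIdeal : ℕ) : ℤ) -
    ((Nat.card {x : (𝓞 K ⧸ v.asIdeal) × (𝓞 K ⧸ v.asIdeal) //
      x.2 ^ 2 = x.1 ^ 3 + (A D : 𝓞 K ⧸ v.asIdeal) * x.1 + (B D : 𝓞 K ⧸ v.asIdeal)} : ℕ) : ℤ)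

/-- the Euler factor `(1 - t_v q_v^(-s-1) + q_v^(-2s-1))⁻¹` of `L(g, s)` at `v`; it is left out at the finitely many
places that divide `14 D` -/
noncomputable def factor {K : Type} [Field K] [NumberField K] (D : ℕ) (s : ℂ)
    (v : HeightOneSpectrum (𝓞 K)) : ℂ :=
  if ((14 * D : ℕ) : 𝓞 K) ∈ v.asIdeal then 1 else
    (1 - ((eigenvalue D v : ℤ) : ℂ) * ((Ideal.absNorm v.asIdeal : ℕ) : ℂ) ^ (-s - 1)
      + ((Ideal.absNorm v.asIdeal : ℕ) : ℂ) ^ (-2 * s - 1))⁻¹

/-- The Bloch–Kato formula for the Hilbert modular newform of `E_D` over the totally real field `K` and `λ = 2`, both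
sides being zero: `L(g, s)` is entire with order of vanishing zero at the centre `s = 0`, and the Bloch–Kato Selmer
group `H¹_f(K, V_2 E_D)` is zero; more precisely `E_D(K)` is finite and the elements of `Ш(E_D/K)` of order a power
of two are killed by `[K : ℚ]`. -/
def RankFormula (D : ℕ) (K : Type) [Field K] [NumberField K] : Prop :=
  IsTotallyReal K ∧
  (∃ L : ℂ → ℂ, Differentiable ℂ L ∧
    (∀ s : ℂ, (1 : ℝ) / 2 < s.re → HasProd (factor (K := K) D s) (L s)) ∧
    analyticOrderAt L 0 = 0 ∧ L 0 ≠ 0) ∧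
  (∀ x : H1f 2 (curve D K), x = 0) ∧
  Finite (curve D K).toAffine.Point ∧
  ∀ (k : ℕ) (x : Sha (curve D K)), 2 ^ k • x = 0 → Module.finrank ℚ K • x = 0

/-- the field generated by the square roots of the elements of `J` -/
noncomputable def Roots (J : Finset ℕ) : IntermediateField ℚ ℂ :=
  IntermediateField.adjoin ℚ {z : ℂ | ∃ q ∈ J, z ^ 2 = (q : ℂ)}

/-- the primes which are `1 mod 8` and split in `ℚ(√-7)`, or `5 mod 8` and inert -/
def InClass (p : ℕ) : Prop := p.Prime ∧ ((p % 8 = 1 ∧ (p % 7 = 1 ∨ p % 7 = 2 ∨ p % 7 = 4)) ∨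
  (p % 8 = 5 ∧ (p % 7 = 3 ∨ p % 7 = 5 ∨ p % 7 = 6)))

/-- the product of the set is `1 mod 8` -/
def One (U : Finset ℕ) : Prop := (∏ q ∈ U, q) % 8 = 1

/-- the determinant of the matrix `1 + Laplacian` of the subgraph of `G` induced on `S` is odd -/
def OddForests {m : ℕ} (G : SimpleGraph (Fin m)) (S : Finset (Fin m)) : Prop :=
  ((1 : Matrix (S : Set (Fin m)) (S : Set (Fin m)) (ZMod 2)) +
    (G.induce (S : Set (Fin m))).lapMatrix (ZMod 2)).det ≠ 0

/-- the determinants are odd for all the sets `S' ∆ X`, `X ⊆ S` -/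
def AllOdd {m : ℕ} (G : SimpleGraph (Fin m)) (S S' : Finset (Fin m)) : Prop :=
  ∀ X, X ⊆ S → OddForests G (S' ∆ X)

/-- every vertex of `S` has at most one neighbour in `S` -/
def Matching {m : ℕ} (G : SimpleGraph (Fin m)) (S : Finset (Fin m)) : Prop :=
  ∀ i ∈ S, ∀ j ∈ S, ∀ k ∈ S, G.Adj i j → G.Adj i k → j = k

/-- the sets `U ⊆ T` with product `1 mod 8` such that `E_M(ℚ)` is finite and `Ш(E_M/ℚ)[2] = 0` for all
`M = ∏ (U ∆ V)`, `V ⊆ J` with product `1 mod 8` -/
def Base (T J : Finset ℕ) : Set (Finset ℕ) :=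
  {U | U ⊆ T ∧ One U ∧ ∀ V, V ⊆ J → One V → RankZeroShaTwo (∏ q ∈ U ∆ V, q)}

/-- the property of the tuple `h`: for every graph `G` there is `d ∈ {1, q r}` such that for infinitely many `n` the
numbers `n + h i` are primes, `1` modulo `56 N`, with at most `B` primes at distance at most `Y` from `n` (for every
`Y`), and the Selmer groups are zero for all the forms and fields described above, and the formula holds in weight `2` -/
def AllFields (T : Finset ℕ) (N q r B : ℕ) {m : ℕ} (h : Fin m → ℕ) : Prop :=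
  ∀ G : SimpleGraph (Fin m), ∃ d : ℕ, (d = 1 ∨ d = q * r) ∧ ∀ Y : ℕ,
    {n : ℕ | (∀ i, (n + h i).Prime ∧ n + h i ≡ 1 [MOD 56 * N]) ∧
      {p : ℕ | p.Prime ∧ |(p : ℤ) - n| ≤ Y}.ncard ≤ B ∧
      ∀ J : Finset ℕ, J ⊆ T → ∀ U ∈ Base T J, ∀ S S' : Finset (Fin m), AllOdd G S S' →
        (∀ (l : ℕ) (W : Fin l → Finset ℕ), (∀ j, W j ⊆ J ∪ S.image (fun i => n + h i) ∧ One (W j)) →
          AllForms ((∏ q ∈ U, q) * (d * ∏ i ∈ S', (n + h i))) (fun j => ∏ q ∈ W j, q)) ∧
        ((∀ V, V ⊆ J → RankZeroShaTwo (∏ q ∈ U ∆ V, q)) →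
          ∀ K : IntermediateField ℚ ℂ, K ≤ Roots (J ∪ S.image (fun i => n + h i)) → ∃ _ : NumberField K,
            RankFormula ((∏ q ∈ U, q) * (d * ∏ i ∈ S', (n + h i))) K)}.Infinite

/-- **The Bloch–Kato Selmer groups of the CM forms of all odd `k` over the fields of prime tuples.** -/
theorem result (m N : ℕ) (hN : 0 < N) (h7 : N.Coprime 7) (T : Finset ℕ) (hT : ∀ q ∈ T, InClass q) :
    (∀ (G : SimpleGraph (Fin m)) (S S' : Finset (Fin m)), Matching G S → S' ⊆ S → AllOdd G S S') ∧
    (∀ J U : Finset ℕ, J ⊆ T → U ⊆ T → (∀ q ∈ J ∪ U, q % 8 = 5) → One U → U ∈ Base T J) ∧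
    ∃ q r B : ℕ, q.Prime ∧ q % 8 = 5 ∧ q % 7 = 3 ∧ r.Prime ∧ r % 8 = 5 ∧ r % 7 = 3 ∧
      ∀ δ : ℝ, 0 < δ → ∃ c : ℝ, 0 < c ∧
      ∃ x₀ : ℕ, ∀ x : ℕ, x₀ ≤ x → ∀ W : Finset ℕ, (∀ w ∈ W, w ≤ x) → δ * x ≤ W.card →
        c * (x : ℝ) ^ m ≤ ({h : Fin m → ℕ | StrictMono h ∧ (∀ i, h i ∈ W) ∧
          AllFields T N q r B h}.ncard : ℝ) :=
  Pool.Agent.U974.AW.Fm8.result m N hN h7 T hT

end Pool.Agent.Results.MP_d4aa36_nt.PrimeTupleForms
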