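import Pool.Agent.U687.J8.Main8
import Pool.Agent.Results.MP_787500_nt.InfiniteTowersX49
import Pool.Agent.Results.MP_6e2fc3_nt.CMFormsAllWeights

/-!
# The parity conjecture at `p = 2` over infinite towers of totally real fields, for the twists, by size, of
# EVERY member of the class

Let `E_N` be the quadratic twist by `N` of `X_0(49)`, `ψ_N` its Hecke character over `K = ℚ(√-7)`. For
`N ≡ 1 mod 8` in the class (squarefree, all prime factors `1 mod 8` and split in `K` or `5 mod 8` and inert
in `K`) let the tower primes be the primes `q ≡ 5 mod 8` that are inert in `K` and squares modulo all the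
prime factors of `N` that split in `K`. The layers are the totally real fields `F = ℚ(√d_1, …, √d_n)`, where
the `d_i` are products of an even number of tower primes; for every `n` there are such fields of degree
`2 ^ n`, and they are the finite subfields of one totally real extension of `ℚ` of infinite degree.

For every odd `k > 0` and every `M = N ∏_{q ∈ U} q` (`U` an even number of tower primes) the newform of
`ψ_M^{2k-1}` has a base change to `F`, a Hilbert modular newform `g` over `F` of parallel weight `2k` and
trivial central character. Its Galois representation `V_g` at the prime `2` is the restriction to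
`Gal(ℚ̄/F)` of the representation of `Gal(ℚ̄/ℚ)` induced from the character `κ^k κ'^(1-k)` of
`Gal(ℚ̄/K)`, `κ`, `κ'` the characters on the `2`-adic Tate module of `E_M`. `TowerZero N` says that there are
layers of every degree `2 ^ n` and that `H¹_f(F, V_g) = 0` for ALL the layers `F`, ALL these `M` and ALL the
weights `2k`, `k` odd. The root numbers of these forms are `1` (products of root numbers of the forms of
`ψ_{M'}^{2k-1}`, `M' > 0`, `M' ≡ 1 mod 8`, which are `1` for odd `k` by the classical formulas), so that both
sides of the parity conjecture are even. (The analytic side is not part of the formal proof.)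

Here `D` is ANY member of the class (`1` or `5 mod 8`), a fixed number; nothing is assumed on `E_D`. It is
twisted by ALL the members `m ≤ X` of the class, prime to `D`, with exactly `K` prime factors and
`D m ≡ 1 mod 8`, in their natural order.

* Among the `m` with exactly `b` split prime factors the proportion of those with `E_{Dm}(ℚ)` finite and
  `Ш(E_{Dm}/ℚ)[2] = 0` tends to `prob K b A`, and the lower density of the `m` with `TowerZero (D m)` is at
  least `prob K b A > 0`: the probability of the state zero, after `b` steps, of the Markov chain `r → r - 1`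
  with the probability `1 - 2^{-r}`, `r → r` and `r → r + 1` with `2^{-r-1}`, started with the law of the
  corank of `A + diag v` for random `v`; for `b = K` after `K - 1` steps from the law of the corank of
  `A + diag v` bordered by `v` and a random corner. `A` is the matrix of the quadratic symbols between the
  split prime factors of `D` and of the quartic symbols of `-7`.
* Among all the `m` the lower density of the `m` with `TowerZero (D m)` is at least the binomial mean
  `total K D A` of these numbers, which is at least `2^{-(n + K + 1)}` and tends to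
  `∏ (1 - 2^{-(2i+1)}) = 0.4194…` for `K → ∞`, for EVERY `D`, with an explicit exponential rate.

In the starting file `InfiniteTowersCMForms` and in `EveryLayerOfOneTower` (helper80) the mean is over all the
members `D ≤ X` of the class; nothing is said there on the twists of a given form. The implication for one
member is from there (`MP_787500_nt.InfiniteTowersX49`). New here: the law of the twists of every member, in
the natural order (`U687/NO`, `U687/J8`: joint law of the quadratic, quartic and mod 8 symbols of the prime
factors of `m`, bilinear estimates, Markov chain).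
-/

set_option autoImplicit false

open scoped Classical

namespace Pool.Agent.Results.MP_d4aa36_nt.TowersBySize

open Filter Matrix Topology
open Pool.Agent.Results.MP_787500_nt.AllWeightsMultiquadraticX49 (RankZeroShaTwo Ind)
open Pool.Agent.Results.MP_6e2fc3_nt.CMFormsAllWeights (AllForms)

/-- the primes `q ≡ 5 mod 8` that are inert in `ℚ(√-7)` and squares modulo all the prime factors of `N`
that split in `ℚ(√-7)` -/
def TowerPrime (N q : ℕ) : Prop :=
  q.Prime ∧ q % 8 = 5 ∧ (q % 7 = 3 ∨ q % 7 = 5 ∨ q % 7 = 6) ∧
    ∀ p : ℕ, p.Prime → p ∣ N → (p % 7 = 1 ∨ p % 7 = 2 ∨ p % 7 = 4) → IsSquare (q : ZMod p)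

/-- a set of an even number of tower primes -/
def EvenSet (N : ℕ) (S : Finset ℕ) : Prop := (∀ q ∈ S, TowerPrime N q) ∧ Even S.card

/-- There are layers of every degree `2 ^ n`, and `H¹_f(F, V_g) = 0` for the forms of the weights `2k`, `k`
odd, for all the twists `M = N ∏_{q ∈ U} q` of `X_0(49)` and over all the layers
`F = ℚ(√d_1, …, √d_n)`, the `d_i` and `∏_{q ∈ U} q` products of an even number of tower primes. -/
def TowerZero (N : ℕ) : Prop :=
  (∀ n : ℕ, ∃ S : Fin n → Finset ℕ, (∀ i, EvenSet N (S i)) ∧ Ind fun i => ∏ q ∈ S i, q) ∧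
  ∀ U : Finset ℕ, EvenSet N U → ∀ (n : ℕ) (S : Fin n → Finset ℕ), (∀ i, EvenSet N (S i)) →
    AllForms (N * ∏ q ∈ U, q) (fun i => ∏ q ∈ S i, q)

/-- squarefree, all prime factors `1 mod 8` and split in `ℚ(√-7)` or `5 mod 8` and inert in `ℚ(√-7)` -/
def Class (D : ℕ) : Prop := Squarefree D ∧ ∀ p ∈ D.primeFactors,
  (p % 8 = 1 ∧ (p % 7 = 1 ∨ p % 7 = 2 ∨ p % 7 = 4)) ∨
  (p % 8 = 5 ∧ (p % 7 = 3 ∨ p % 7 = 5 ∨ p % 7 = 6))

/-- the split prime factors of a member of the class -/
noncomputable def splitPrimes (D : ℕ) : Finset ℕ := D.primeFactors.filter fun p => p % 8 = 1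

/-- the `m ≤ X` of the class, prime to `D`, with exactly `K` prime factors, and `D m ≡ 1 mod 8` -/
noncomputable def multipliers (K D X : ℕ) : Finset ℕ :=
  (Finset.Icc 1 X).filter fun m =>
    Class m ∧ m.primeFactors.card = K ∧ Nat.Coprime m D ∧ (D * m) % 8 = 1

/-- those with exactly `b` split prime factors -/
noncomputable def multipliersSplit (K b D X : ℕ) : Finset ℕ :=
  (multipliers K D X).filter fun m => (splitPrimes m).card = b

/-- the share of the `m` with the property `Q` in a set of numbers -/
noncomputable def share (N : Finset ℕ) (Q : ℕ → Prop) : ℝ := ((N.filter Q).card : ℝ) / (N.card : ℝ)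

/-- the possible numbers of split prime factors of the multipliers -/
def kinds (K D : ℕ) : Finset ℕ := (Finset.range (K + 1)).filter fun b => (D * 5 ^ (K - b)) % 8 = 1

/-- `P` enumerates the split prime factors of `D` -/
def IsEnumeration (D n : ℕ) (P : Fin n → ℕ) : Prop :=
  Function.Injective P ∧ splitPrimes D = Finset.univ.image P

/-- `1` if `m` is not a square modulo `p`, and `0` if it is -/
noncomputable def nonsq (p m : ℕ) : ZMod 2 := if IsSquare (m : ZMod p) then 0 else 1

/-- `1` if `-7` is not a fourth power modulo `p`, and `0` if it is -/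
noncomputable def nonfourth (p : ℕ) : ZMod 2 := if ∃ y : ZMod p, y ^ 4 = -7 then 0 else 1

/-- the matrix of the symbols -/
noncomputable def symbols (D : ℕ) {n : ℕ} (P : Fin n → ℕ) : Matrix (Fin n) (Fin n) (ZMod 2) :=
  Matrix.of fun i j =>
    if i = j then nonfourth (P i) + ∑ l ∈ D.primeFactors.erase (P i), nonsq (P i) l
    else nonsq (P i) (P j)

/-- the matrix `M` with the border `b` and the corner `d` -/
def bordered {n : ℕ} (M : Matrix (Fin n) (Fin n) (ZMod 2)) (d : ZMod 2) (b : Fin n → ZMod 2) :
    Matrix (Fin (n + 1)) (Fin (n + 1)) (ZMod 2) :=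
  Matrix.of (Fin.cons (Fin.cons d b) fun i => Fin.cons (b i) (M i))

/-- the share of the `v` for which the corank of `A + diag v` is `r` -/
noncomputable def diagonalLaw {n : ℕ} (A : Matrix (Fin n) (Fin n) (ZMod 2)) (r : ℕ) : ℝ :=
  (Nat.card {v : Fin n → ZMod 2 // (A + diagonal v).rank + r = n} : ℝ) / 2 ^ n

/-- the share of the pairs `(v, d)` for which the corank of `A + diag v`, with the border `v` and the
corner `d`, is `r` -/
noncomputable def borderLaw {n : ℕ} (A : Matrix (Fin n) (Fin n) (ZMod 2)) (r : ℕ) : ℝ :=
  (Nat.card {x : (Fin n → ZMod 2) × ZMod 2 //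
    (bordered (A + diagonal x.1) x.2 x.1).rank + r = n + 1} : ℝ) / 2 ^ (n + 1)

/-- one step of the Markov chain -/
noncomputable def markov (μ : ℕ → ℝ) (r : ℕ) : ℝ :=
  (1 - (1 / 2) ^ (r + 1)) * μ (r + 1) + (1 / 2) ^ (r + 1) * μ r +
    (if r = 0 then 0 else (1 / 2) ^ r * μ (r - 1))

/-- the probability of zero after `K` primes, `b` of them split -/
noncomputable def prob (K b : ℕ) {n : ℕ} (A : Matrix (Fin n) (Fin n) (ZMod 2)) : ℝ :=
  if b = K then markov^[K - 1] (borderLaw A) 0 else markov^[b] (diagonalLaw A) 0

/-- the probability of zero for all the multipliers with `K` prime factors -/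
noncomputable def total (K D : ℕ) {n : ℕ} (A : Matrix (Fin n) (Fin n) (ZMod 2)) : ℝ :=
  ∑ b ∈ kinds K D, (K.choose b : ℝ) / 2 ^ (K - 1) * prob K b A

/-- `∏_{i ≥ 0} (1 - 2^{-(2i+1)}) = 0.4194...` -/
noncomputable def limit : ℝ := ∏' i : ℕ, (1 - (1 / 2 : ℝ) ^ (2 * i + 1))

/-- **Theorem.** -/
theorem result :
    (∀ D : ℕ, Class D → ∃ P, IsEnumeration D (splitPrimes D).card P) ∧
    (∀ (D n K : ℕ) (P : Fin n → ℕ), Class D → IsEnumeration D n P → 1 ≤ K →
      (∀ᶠ X in atTop, (multipliers K D X).Nonempty) ∧
      (∀ X, ∀ m ∈ multipliers K D X, RankZeroShaTwo (D * m) → TowerZero (D * m)) ∧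
      (∀ b ∈ kinds K D, (∀ᶠ X in atTop, (multipliersSplit K b D X).Nonempty) ∧
        Tendsto (fun X => share (multipliersSplit K b D X) fun m => RankZeroShaTwo (D * m)) atTop
          (𝓝 (prob K b (symbols D P))) ∧
        (∀ x < prob K b (symbols D P), ∀ᶠ X in atTop,
          x < share (multipliersSplit K b D X) fun m => TowerZero (D * m)) ∧
        (1 / 2 : ℝ) ^ (n + b + 1) ≤ prob K b (symbols D P) ∧
        |prob K b (symbols D P) - limit| ≤
          (∏ i ∈ Finset.range n, ((2 : ℝ) ^ (i + 1) - 1)) * (1 / 2) ^ min b (K - 1)) ∧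
      Tendsto (fun X => share (multipliers K D X) fun m => RankZeroShaTwo (D * m)) atTop
        (𝓝 (total K D (symbols D P))) ∧
      (∀ x < total K D (symbols D P), ∀ᶠ X in atTop,
        x < share (multipliers K D X) fun m => TowerZero (D * m)) ∧
      (1 / 2 : ℝ) ^ (n + K + 1) ≤ total K D (symbols D P) ∧
      |total K D (symbols D P) - limit| ≤
        4 * (∏ i ∈ Finset.range n, ((2 : ℝ) ^ (i + 1) - 1)) * (3 / 4) ^ K) ∧
    (∀ (D n : ℕ) (P : Fin n → ℕ), Class D → IsEnumeration D n P →
      Tendsto (fun K => total K D (symbols D P)) atTop (𝓝 limit)) ∧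
    (0.4194 : ℝ) < limit ∧ limit < 0.4195 :=
  Pool.Agent.U687.J8.Main.main TowerZero fun _ hN hR =>
    ⟨Pool.Agent.Results.MP_787500_nt.InfiniteTowersX49.exists_ind hN, fun _ hU n _ hS =>
      Pool.Agent.Results.MP_6e2fc3_nt.CMFormsAllWeights.result.1 n _ _
        (Pool.Agent.Results.MP_787500_nt.InfiniteTowersX49.good hN hR hU _ hS)⟩

end Pool.Agent.Results.MP_d4aa36_nt.TowersBySize
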